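import Pool.Agent.KS6_44.Leo5

namespace Pool.Agent.Results.MP_23ff89_al.EveryDimension

open Module Pool.Agent.KS6_44.Leo

theorem result (K : Type*) [Field K] (V : Type*) [AddCommGroup V] [Module K V]
    [FiniteDimensional K V] :
    (finrank K V ≤ 2 → ∀ A B C : End K V,
      LeonardPair A B → LeonardPair A C → LeonardPair B C → LeonardTriple A B C) ∧
    (3 ≤ finrank K V → (∀ m : ℕ, 0 < m → m < 2 * finrank K V → (m : K) ≠ 0) →
      ∃ A B C : End K V, LeonardPair A B ∧ LeonardPair A C ∧ LeonardPair B C ∧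
        ¬ Half₂ A B C ∧ ¬ Half₂ B A C ∧ ¬ LeonardTriple A B C) ∧
    (CharZero K → ((∀ A B C : End K V,
      LeonardPair A B → LeonardPair A C → LeonardPair B C → LeonardTriple A B C) ↔
        finrank K V ≤ 2)) := by
  have h1 : finrank K V ≤ 2 → ∀ A B C : End K V,
      LeonardPair A B → LeonardPair A C → LeonardPair B C → LeonardTriple A B C := by
    intro hdim A B C hAB hAC hBC
    exact ⟨half₂_of_half hdim hAB hAC, half₂_of_half hdim ⟨hAB.2, hAB.1⟩ hBC,
      half₂_of_half hdim ⟨hAC.2, hAC.1⟩ ⟨hBC.2, hBC.1⟩⟩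
  have h2 : 3 ≤ finrank K V → (∀ m : ℕ, 0 < m → m < 2 * finrank K V → (m : K) ≠ 0) →
      ∃ A B C : End K V, LeonardPair A B ∧ LeonardPair A C ∧ LeonardPair B C ∧
        ¬ Half₂ A B C ∧ ¬ Half₂ B A C ∧ ¬ LeonardTriple A B C := by
    intro h3 hK
    obtain ⟨d, hd⟩ : ∃ d, finrank K V = d + 1 := ⟨finrank K V - 1, by omega⟩
    let b : Basis (Fin (d + 1)) K V := (finBasisOfFinrankEq K V hd)
    obtain ⟨e1, e2, e3, e4, e5⟩ := model_pairs b (fun m hm hm2 => hK m hm (by omega))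
      (by omega)
    exact ⟨_, _, _, e1, e2, e3, e4, e5, fun h => e4 h.1⟩
  refine ⟨h1, h2, fun hz => ⟨fun h => ?_, h1⟩⟩
  by_contra hlt
  obtain ⟨A, B, C, e1, e2, e3, -, -, e4⟩ := h2 (by omega)
    (fun m hm _ => by exact_mod_cast hm.ne')
  exact e4 (h A B C e1 e2 e3)

end Pool.Agent.Results.MP_23ff89_al.EveryDimension
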